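import Mathlib

set_option autoImplicit false

namespace Pool.Agent.H.MP_ad3787_an

open Polynomial Finset Metric Filter Topology

lemma card_roots {P : ℂ[X]} (h0 : P ≠ 0) (h : ∀ e, P.eval e = 0 → P.derivative.eval e ≠ 0) :
    P.roots.Nodup ∧ P.roots.toFinset.card = P.natDegree := by
  have nd : P.roots.Nodup := by
    rw [Multiset.nodup_iff_count_le_one]
    intro e
    rw [count_roots]
    by_contra hc
    have := (one_lt_rootMultiplicity_iff_isRoot h0).1 (not_le.1 hc)
    exact h e this.1 this.2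
  exact ⟨nd, by rw [Multiset.toFinset_card_of_nodup nd, IsAlgClosed.card_roots_eq_natDegree]⟩

lemma interp {P : ℂ[X]} (h0 : P ≠ 0) (h : ∀ e, P.eval e = 0 → P.derivative.eval e ≠ 0)
    {q : ℂ[X]} (hq : q.natDegree < P.natDegree) {w : ℂ} (hw : P.eval w ≠ 0) :
    q.eval w = ∑ e ∈ P.roots.toFinset, q.eval e * (P.eval w / (P.derivative.eval e * (w - e))) := by
  obtain ⟨nd, cd⟩ := card_roots h0 h
  have hP : P = C P.leadingCoeff * Lagrange.nodal P.roots.toFinset id := by
    conv_lhs => rw [← C_leadingCoeff_mul_prod_multiset_X_sub_C (IsAlgClosed.card_roots_eq_natDegree (p := P))]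
    congr 1
    rw [Lagrange.nodal, Finset.prod_eq_multiset_prod, Multiset.toFinset_val, nd.dedup]; rfl
  have lc : P.leadingCoeff ≠ 0 := leadingCoeff_ne_zero.2 h0
  have hx : ∀ i ∈ P.roots.toFinset, w ≠ id i := fun i hi e => by
    rw [Multiset.mem_toFinset, mem_roots h0] at hi
    exact hw (e ▸ hi)
  have h1 := Lagrange.eq_interpolate (s := P.roots.toFinset) (v := id) (f := q)
    (Set.injOn_id _) (by rw [cd]; exact (degree_le_natDegree).trans_lt (by exact_mod_cast hq))
  have h2 := congrArg (eval w) h1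
  rw [Lagrange.eval_interpolate_not_at_node _ hx] at h2
  rw [h2, mul_sum]
  refine sum_congr rfl fun e he => ?_
  rw [Lagrange.nodalWeight_eq_eval_derivative_nodal he]
  generalize Lagrange.nodal P.roots.toFinset id = N at *
  generalize P.leadingCoeff = c at *
  have e1 : P.eval w = c * N.eval w := by conv_lhs => rw [hP]; simp
  have e2 : P.derivative.eval e = c * N.derivative.eval e := by conv_lhs => rw [hP]; simp
  rw [e1, e2]
  simp only [id]
  field_simp

lemma schwarz (q : ℂ[X]) {e w : ℂ} {σ T : ℝ} (h : ∀ v ∈ ball e σ, ‖q.eval v‖ ≤ T) (hw : w ∈ ball e σ) :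
    ‖q.eval w - q.eval e‖ ≤ 2 * T / σ * ‖w - e‖ := by
  have s0 : 0 < σ := dist_nonneg.trans_lt hw
  have := Complex.dist_le_div_mul_dist_of_mapsTo_ball (f := fun v => q.eval v) (c := e) (R₁ := σ)
    (R₂ := 2 * T) q.differentiable.differentiableOn (fun v hv => by
      rw [mem_closedBall, dist_eq_norm]
      linarith [norm_sub_le (q.eval v) (q.eval e), h v hv, h e (mem_ball_self s0)]) hw
  simpa [dist_eq_norm] using this

lemma lip (P : ℂ[X]) (R : ℝ) : ∃ A : ℝ, 1 ≤ A ∧ ∀ v, ‖v‖ ≤ R → ‖P.eval v‖ ≤ A ∧ ‖P.derivative.eval v‖ ≤ A ∧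
    ∀ w, ‖w‖ ≤ R → ‖P.eval v - P.eval w‖ ≤ A * ‖v - w‖ := by
  obtain ⟨A1, h1⟩ := (isCompact_closedBall (0 : ℂ) R).bddAbove_image P.continuous.norm.continuousOn
  obtain ⟨A2, h2⟩ := (isCompact_closedBall (0 : ℂ) R).bddAbove_image
    P.derivative.continuous.norm.continuousOn
  have h3 : ∀ v ∈ closedBall (0 : ℂ) R, ‖P.derivative.eval v‖ ≤ max 1 (max A1 A2) := fun v hv =>
    (h2 ⟨v, hv, rfl⟩).trans ((le_max_right _ _).trans (le_max_right _ _))
  refine ⟨max 1 (max A1 A2), le_max_left _ _, fun v hv => ⟨(h1 ⟨v, mem_closedBall_zero_iff.2 hv, rfl⟩).trans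
    ((le_max_left _ _).trans (le_max_right _ _)), h3 v (mem_closedBall_zero_iff.2 hv), fun w hw => ?_⟩⟩
  exact (convex_closedBall (0 : ℂ) R).norm_image_sub_le_of_norm_hasDerivWithin_le
    (fun x _ => (P.hasDerivAt x).hasDerivWithinAt) h3 (mem_closedBall_zero_iff.2 hw)
    (mem_closedBall_zero_iff.2 hv)

lemma pow_lip {a b : ℂ} (ha : ‖a‖ ≤ 1) (hb : ‖b‖ ≤ 1) (s : ℕ) : ‖a ^ s - b ^ s‖ ≤ s * ‖a - b‖ := by
  induction s with
  | zero => simp
  | succ s ih =>
    have : a ^ (s + 1) - b ^ (s + 1) = a * (a ^ s - b ^ s) + (a - b) * b ^ s := by ring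
    rw [this]
    refine (norm_add_le _ _).trans ?_
    rw [norm_mul, norm_mul, norm_pow]
    have h1 : ‖b‖ ^ s ≤ 1 := pow_le_one₀ (norm_nonneg _) hb
    have h2 := mul_le_mul ha ih (norm_nonneg _) zero_le_one
    have h3 := mul_le_mul_of_nonneg_left h1 (norm_nonneg (a - b))
    push_cast; linarith

lemma cpt {P : ℂ[X]} (hP : 1 ≤ P.natDegree) : IsCompact {w | ‖P.eval w‖ ≤ 1} := by
  have := (P.isProperMap_eval (natDegree_pos_iff_degree_pos.1 hP)).isCompact_preimage (isCompact_closedBall (0 : ℂ) 1)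
  convert this using 1
  ext w; simp

lemma bw {P q : ℂ[X]} (hP : 1 ≤ P.natDegree) {n : ℕ} (hq : q.natDegree ≤ n) {t B : ℝ} (t0 : 0 < t)
    (B1 : 1 ≤ B) (h : ∀ w, ‖P.eval w‖ ≤ 1 → ‖q.eval w‖ ≤ t) {w : ℂ} (hw : ‖P.eval w‖ ≤ B) :
    ‖q.eval w‖ ^ P.natDegree ≤ t ^ P.natDegree * B ^ (n + 1) := by
  by_cases h1 : ‖P.eval w‖ ≤ 1
  · exact (pow_le_pow_left₀ (norm_nonneg _) (h w h1) _).trans
      (le_mul_of_one_le_right (by positivity) (one_le_pow₀ B1))
  have P0 : P ≠ 0 := by rintro rfl; simp at hP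
  have lo := isLittleO_cobounded_of_degree_lt (P := q ^ P.natDegree) (Q := P ^ (n + 1))
    (degree_lt_degree (by
      rw [natDegree_pow P]
      exact natDegree_pow_le.trans_lt (by nlinarith)))
  have ev := lo.def (pow_pos t0 P.natDegree)
  obtain ⟨R, -, hR⟩ := (hasBasis_cobounded_norm.eventually_iff).1 ev
  have ne : ∀ v ∈ closure ({v | 1 < ‖P.eval v‖} ∩ ball (0 : ℂ) (max R ‖w‖ + 1)), 1 ≤ ‖P.eval v‖ := by
    intro v hv
    exact closure_minimal (t := {v | 1 ≤ ‖P.eval v‖}) (fun x hx => le_of_lt (show 1 < ‖P.eval x‖ from hx.1))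
      (isClosed_le continuous_const P.continuous.norm) hv
  have := Complex.norm_le_of_forall_mem_frontier_norm_le
    (f := fun v => (q.eval v) ^ P.natDegree / (P.eval v) ^ (n + 1)) (C := t ^ P.natDegree)
    (U := {v | 1 < ‖P.eval v‖} ∩ ball (0 : ℂ) (max R ‖w‖ + 1)) (isBounded_ball.subset Set.inter_subset_right)
    (DifferentiableOn.diffContOnCl fun v hv => ((q.differentiable.pow _ v).div (P.differentiable.pow _ v)
      (pow_ne_zero _ (norm_pos_iff.1 (one_pos.trans_le (ne v hv))))).differentiableWithinAt)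
    (fun v hv => by
      have hv1 := ne v (frontier_subset_closure hv)
      rw [norm_div, div_le_iff₀ (by rw [norm_pow]; positivity)]
      rcases frontier_inter_subset _ _ hv with hv | hv
      · have : 1 = ‖P.eval v‖ := frontier_lt_subset_eq continuous_const P.continuous.norm hv.1
        rw [norm_pow, norm_pow, ← this, one_pow, mul_one]
        exact pow_le_pow_left₀ (norm_nonneg _) (h v this.ge) _
      · have := hv.2
        rw [frontier_ball _ (by positivity), mem_sphere_zero_iff_norm] at this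
        have := hR (x := v) (by simp only [Set.mem_ofPred_eq]; linarith [le_max_left R ‖w‖])
        simpa using this)
    (z := w) (subset_closure ⟨not_le.1 h1, by
      rw [mem_ball_zero_iff]; linarith [le_max_right R ‖w‖]⟩)
  rw [norm_div, div_le_iff₀ (by rw [norm_pow]; have := not_le.1 h1; positivity), norm_pow, norm_pow] at this
  exact this.trans (mul_le_mul_of_nonneg_left (pow_le_pow_left₀ (norm_nonneg _) hw _) (by positivity))

end Pool.Agent.H.MP_ad3787_an
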