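import Pool.Agent.H.MP_ad3787_an.A

set_option autoImplicit false

namespace Pool.Agent.H.MP_ad3787_an

open Polynomial Finset Metric Filter Topology

def Good (F : ℂ[X]) : Prop := 1 ≤ F.natDegree ∧ ∀ w, ‖F.eval w‖ ≤ 1 → F.derivative.eval w ≠ 0

lemma nodes (r : ℕ) : ∃ N : ℂ[X], N.Monic ∧ N.natDegree = r ∧ ∃ c0 : ℝ, 0 < c0 ∧ c0 ≤ ‖N.eval 0‖ ∧
    ∀ t, N.eval t = 0 → c0 ≤ ‖N.derivative.eval t‖ ∧ ∃ y : ℝ, t = y ∧ 5 / 8 ≤ y ∧ y ≤ 3 / 4 := by
  let y : ℕ → ℝ := fun i => 5 / 8 + 1 / (8 * ((i : ℝ) + 1))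
  have yb : ∀ i, 5 / 8 ≤ y i ∧ y i ≤ 3 / 4 := fun i => by
    have h1 : (0 : ℝ) ≤ 1 / (8 * ((i : ℝ) + 1)) := by positivity
    have h2 : 1 / (8 * ((i : ℝ) + 1)) ≤ 1 / 8 :=
      one_div_le_one_div_of_le (by norm_num) (by have : (0 : ℝ) ≤ i := by positivity
                                                 linarith)
    constructor <;> simp only [y] <;> linarith
  have yi : Function.Injective fun i => (y i : ℂ) := fun i j h => by
    have h1 : y i = y j := Complex.ofReal_injective h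
    simp only [y, add_right_inj, one_div, inv_inj] at h1
    have : (i : ℝ) = j := by linarith
    exact_mod_cast this
  let N := Lagrange.nodal (range r) fun i => (y i : ℂ)
  have rt : ∀ t, N.eval t = 0 → ∃ i ∈ range r, t = y i := fun t ht => by
    by_contra! H
    exact Lagrange.eval_nodal_not_at_node H ht
  have h0 : 0 < ‖N.eval 0‖ := norm_pos_iff.2 fun h => by
    obtain ⟨i, -, hi⟩ := rt 0 h
    have : y i = 0 := by exact_mod_cast hi.symm
    linarith [(yb i).1]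
  have h1 : ∀ i ∈ range r, 0 < ‖N.derivative.eval (y i : ℂ)‖ := fun i hi => norm_pos_iff.2 fun h => by
    have := Lagrange.nodalWeight_ne_zero (s := range r) (v := fun i => (y i : ℂ)) yi.injOn hi
    rw [Lagrange.nodalWeight_eq_eval_derivative_nodal hi] at this
    exact this (by rw [inv_eq_zero]; exact h)
  obtain ⟨c, c0, hc⟩ : ∃ c : ℝ, 0 < c ∧ ∀ i ∈ range r, c ≤ ‖N.derivative.eval (y i : ℂ)‖ := by
    rcases (range r).eq_empty_or_nonempty with h | h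
    · exact ⟨1, one_pos, by simp [h]⟩
    · obtain ⟨i, hi, hm⟩ := exists_min_image (range r) (fun i => ‖N.derivative.eval (y i : ℂ)‖) h
      exact ⟨_, h1 i hi, hm⟩
  refine ⟨N, Lagrange.nodal_monic, by simp [N], min c ‖N.eval 0‖, lt_min c0 h0, min_le_right _ _,
    fun t ht => ?_⟩
  obtain ⟨i, hi, rfl⟩ := rt t ht
  exact ⟨(min_le_left _ _).trans (hc i hi), y i, rfl, yb i⟩

/-- all data of one step that do not depend on `s` -/
structure Data (F N : ℂ[X]) (R A a c : ℝ) : Prop where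
  dF : 1 ≤ F.natDegree
  mN : N.Monic
  dN : 1 ≤ N.natDegree
  A1 : 1 ≤ A
  a0 : 0 < a
  c0 : 0 < c
  hR : ∀ w, ‖F.eval w‖ ≤ 1 → ‖w‖ ≤ R
  hF : ∀ v, ‖v‖ ≤ R + 1 → ‖F.derivative.eval v‖ ≤ A ∧
    ∀ w, ‖w‖ ≤ R + 1 → ‖F.eval v - F.eval w‖ ≤ A * ‖v - w‖
  hN : ∀ v, ‖v‖ ≤ 1 → ‖N.eval v‖ ≤ A ∧ ‖N.derivative.eval v‖ ≤ A ∧
    ∀ w, ‖w‖ ≤ 1 → ‖N.eval v - N.eval w‖ ≤ A * ‖v - w‖
  ha : ∀ w, ‖F.eval w‖ ≤ 1 → a ≤ ‖F.derivative.eval w‖
  hc : c ≤ ‖N.eval 0‖
  hr : ∀ t, N.eval t = 0 → c ≤ ‖N.derivative.eval t‖ ∧ ∃ y : ℝ, t = y ∧ 5 / 8 ≤ y ∧ y ≤ 3 / 4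

lemma data {F : ℂ[X]} (hF : Good F) (r : ℕ) (hr : 1 ≤ r) :
    ∃ N R A a c, N.natDegree = r ∧ Data F N R A a c := by
  obtain ⟨N, mN, dN, c, c0, hc, hN⟩ := nodes r
  obtain ⟨R, hR⟩ := (cpt hF.1).isBounded.subset_closedBall 0
  obtain ⟨A1, A11, h1⟩ := lip F (R + 1)
  obtain ⟨A2, A21, h2⟩ := lip N 1
  obtain ⟨z, hz⟩ := Complex.exists_root (natDegree_pos_iff_degree_pos.1 hF.1)
  obtain ⟨w, hw, hm⟩ := (cpt hF.1).exists_isMinOn ⟨z, by simp [hz.eq_zero]⟩
    F.derivative.continuous.norm.continuousOn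
  have l1 := le_max_left A1 A2
  have l2 := le_max_right A1 A2
  refine ⟨N, R, max A1 A2, _, c, dN, hF.1, mN, by omega, by linarith, norm_pos_iff.2 (hF.2 w hw), c0,
    fun w hw => mem_closedBall_zero_iff.1 (hR hw), fun v hv => ⟨(h1 v hv).2.1.trans l1, fun w hw =>
      ((h1 v hv).2.2 w hw).trans (mul_le_mul_of_nonneg_right l1 (norm_nonneg _))⟩,
    fun v hv => ⟨(h2 v hv).1.trans l2, (h2 v hv).2.1.trans l2, fun w hw =>
      ((h2 v hv).2.2 w hw).trans (mul_le_mul_of_nonneg_right l2 (norm_nonneg _))⟩,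
    fun w hw => hm hw, hc, hN⟩

variable {F N : ℂ[X]} {R A a c : ℝ} {s : ℕ}

noncomputable def om (F N : ℂ[X]) (s : ℕ) : ℂ[X] := N.comp (F ^ s)

lemma om_eval (w : ℂ) : (om F N s).eval w = N.eval (F.eval w ^ s) := by simp [om, eval_comp]

lemma om_der (w : ℂ) : (om F N s).derivative.eval w =
    s * F.eval w ^ (s - 1) * F.derivative.eval w * N.derivative.eval (F.eval w ^ s) := by
  simp [om, derivative_comp, derivative_pow, eval_comp]

lemma om_deg : (om F N s).natDegree = N.natDegree * (s * F.natDegree) := by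
  rw [om, natDegree_comp, natDegree_pow]

lemma Data.om_pos (h : Data F N R A a c) (hs : 1 ≤ s) : 1 ≤ (om F N s).natDegree := by
  rw [om_deg]; exact Nat.mul_pos h.dN (Nat.mul_pos hs h.dF)

lemma Data.om_ne (h : Data F N R A a c) (hs : 1 ≤ s) : om F N s ≠ 0 := fun e => by
  have := h.om_pos hs; rw [e] at this; simp at this

lemma Data.F_ne (h : Data F N R A a c) : F ≠ 0 := fun e => by
  have := h.dF; rw [e] at this; simp at this

lemma Data.root (h : Data F N R A a c) (hs : 1 ≤ s) {e : ℂ} (he : (om F N s).eval e = 0) :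
    1 / 2 ≤ ‖F.eval e‖ ∧ ‖F.eval e‖ ≤ 1 - 1 / (4 * s) ∧ c * a * s / 2 ≤ ‖(om F N s).derivative.eval e‖ ∧
      ‖1 - F.eval e ^ s‖ ≤ 3 / 8 := by
  rw [om_eval] at he
  obtain ⟨h1, y, hy, y1, y2⟩ := h.hr _ he
  have s0 : (1 : ℝ) ≤ s := by exact_mod_cast hs
  have n1 : ‖F.eval e‖ ^ s = y := by rw [← norm_pow, hy, Complex.norm_real, Real.norm_of_nonneg (by linarith)]
  have q0 : 1 / (4 * (s : ℝ)) ≤ 1 / 4 := one_div_le_one_div_of_le (by norm_num) (by linarith)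
  have q1 : 0 < 1 / (4 * (s : ℝ)) := by positivity
  have u : ‖F.eval e‖ ≤ 1 - 1 / (4 * s) := by
    refine le_of_pow_le_pow_left₀ (n := s) (by omega) (by linarith) ?_
    have := one_add_mul_le_pow (a := -(1 / (4 * (s : ℝ)))) (by linarith) s
    rw [n1, sub_eq_add_neg]
    refine le_trans ?_ this
    have : (s : ℝ) * -(1 / (4 * s)) = -(1 / 4) := by field_simp
    linarith
  have u1 : ‖F.eval e‖ ≤ 1 := by linarith
  have l1 : ‖F.eval e‖ ^ s ≤ ‖F.eval e‖ ^ 1 := pow_le_pow_of_le_one (norm_nonneg _) u1 hs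
  have l2 : ‖F.eval e‖ ^ s ≤ ‖F.eval e‖ ^ (s - 1) := pow_le_pow_of_le_one (norm_nonneg _) u1 (by omega)
  refine ⟨by linarith, u, ?_, ?_⟩
  · rw [om_der, norm_mul, norm_mul, norm_mul, norm_pow, Complex.norm_natCast]
    have := h.ha e u1
    have a0 := h.a0
    have c0 := h.c0
    calc c * a * s / 2 = s * (1 / 2) * a * c := by ring
      _ ≤ _ := by gcongr; linarith
  · rw [hy, ← Complex.ofReal_one, ← Complex.ofReal_sub, Complex.norm_real, Real.norm_of_nonneg] <;> linarith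

lemma Data.om_simple (h : Data F N R A a c) (hs : 1 ≤ s) (e : ℂ) (he : (om F N s).eval e = 0) :
    (om F N s).derivative.eval e ≠ 0 := by
  have := (h.root hs he).2.2.1
  have a0 := h.a0
  have c0 := h.c0
  exact norm_pos_iff.1 (lt_of_lt_of_le (by positivity) this)

lemma Data.Groot (h : Data F N R A a c) (hs : 1 ≤ s) {e : ℂ} (he : (F * om F N s).eval e = 0) :
    ‖F.eval e‖ ≤ 1 - 1 / (4 * s) ∧ c * a / 4 ≤ ‖(F * om F N s).derivative.eval e‖ := by
  have s0 : (1 : ℝ) ≤ s := by exact_mod_cast hs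
  have a0 := h.a0
  have c0 := h.c0
  rw [eval_mul, mul_eq_zero] at he
  rw [derivative_mul, eval_add, eval_mul, eval_mul]
  rcases he with he | he
  · have q0 : 1 / (4 * (s : ℝ)) ≤ 1 / 4 := one_div_le_one_div_of_le (by norm_num) (by linarith)
    refine ⟨by rw [he, norm_zero]; linarith, ?_⟩
    rw [he, zero_mul, add_zero, om_eval, he, zero_pow (by omega), norm_mul]
    have := mul_le_mul (h.ha e (by simp [he])) h.hc c0.le (norm_nonneg _)
    nlinarith [mul_pos a0 c0]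
  · obtain ⟨h1, h2, h3, -⟩ := h.root hs he
    refine ⟨h2, ?_⟩
    rw [he, mul_zero, zero_add, norm_mul]
    have := mul_le_mul h1 h3 (by positivity) (norm_nonneg _)
    nlinarith [mul_pos a0 c0]

lemma Data.ball_sub (h : Data F N R A a c) (hs : 1 ≤ s) {e : ℂ} (he : ‖F.eval e‖ ≤ 1 - 1 / (4 * s))
    {v : ℂ} (hv : ‖v - e‖ ≤ 1 / (4 * s * A)) : ‖F.eval v‖ ≤ 1 := by
  have s0 : (1 : ℝ) ≤ s := by exact_mod_cast hs
  have A1 := h.A1
  have q1 : 0 < 1 / (4 * (s : ℝ)) := by positivity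
  have h1 := h.hR e (by linarith)
  have h2 : 1 / (4 * s * A) ≤ 1 := by rw [div_le_one (by positivity)]; nlinarith
  have h3 : ‖v‖ ≤ R + 1 := by linarith [norm_le_norm_add_norm_sub' v e]
  have h4 := (h.hF v h3).2 e (by linarith)
  have h5 : A * ‖v - e‖ ≤ 1 / (4 * s) := by
    refine (mul_le_mul_of_nonneg_left hv (by linarith)).trans (le_of_eq ?_)
    field_simp
  linarith [norm_le_norm_add_norm_sub' (F.eval v) (F.eval e)]

lemma Data.pow_lip (h : Data F N R A a c) {v w : ℂ} (hv : ‖F.eval v‖ ≤ 1) (hw : ‖F.eval w‖ ≤ 1) :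
    ‖F.eval v ^ s - F.eval w ^ s‖ ≤ s * A * ‖v - w‖ := by
  refine (Pool.Agent.H.MP_ad3787_an.pow_lip hv hw s).trans ?_
  rw [mul_assoc]
  exact mul_le_mul_of_nonneg_left ((h.hF v (by linarith [h.hR v hv])).2 w (by linarith [h.hR w hw]))
    (by positivity)

lemma pow_le1 {v : ℂ} (hv : ‖v‖ ≤ 1) (s : ℕ) : ‖v ^ s‖ ≤ 1 := by
  rw [norm_pow]; exact pow_le_one₀ (norm_nonneg _) hv

lemma Data.sup (h : Data F N R A a c) (hs : 1 ≤ s) {l : ℂ[X]} (hl : l.natDegree < (om F N s).natDegree)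
    (h1 : ∀ e, (om F N s).eval e = 0 → ‖l.eval e‖ ≤ 1) {w : ℂ} (hw : ‖F.eval w‖ ≤ 1) :
    ‖l.eval w‖ ≤ (om F N s).natDegree * (2 * A ^ 2 / (c * a)) + 1 := by
  have s0 : (1 : ℝ) ≤ s := by exact_mod_cast hs
  have a0 := h.a0
  have c0 := h.c0
  have A1 := h.A1
  by_cases h0 : (om F N s).eval w = 0
  · exact (h1 w h0).trans (le_add_of_nonneg_left (by positivity))
  rw [interp (h.om_ne hs) (h.om_simple hs) hl h0]
  refine (norm_sum_le_of_le _ (n := fun _ => 2 * A ^ 2 / (c * a)) fun e he => ?_).trans ?_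
  · rw [Multiset.mem_toFinset, mem_roots (h.om_ne hs)] at he
    obtain ⟨-, r2, r3, -⟩ := h.root hs he
    have q1 : 0 < 1 / (4 * (s : ℝ)) := by positivity
    have we : 0 < ‖w - e‖ := norm_pos_iff.2 (sub_ne_zero.2 fun e' => h0 (e' ▸ he))
    have b1 : ‖(om F N s).eval w‖ ≤ A * (s * A * ‖w - e‖) := by
      have := (h.hN _ (pow_le1 hw s)).2.2 _ (pow_le1 (show ‖F.eval e‖ ≤ 1 by linarith) s)
      rw [← om_eval, ← om_eval, he.eq_zero, sub_zero] at this
      exact this.trans (mul_le_mul_of_nonneg_left (h.pow_lip hw (by linarith)) (by linarith))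
    rw [norm_mul, norm_div, norm_mul]
    refine (mul_le_of_le_one_left (by positivity) (h1 e he)).trans ?_
    refine (div_le_div₀ (by positivity) b1 (by positivity)
      (mul_le_mul_of_nonneg_right r3 we.le)).trans (le_of_eq ?_)
    field_simp
  · rw [sum_const, (card_roots (h.om_ne hs) (h.om_simple hs)).2, nsmul_eq_mul]; linarith

lemma near {G : ℂ[X]} (hG : 1 ≤ G.natDegree) {c1 : ℝ} (c0 : 0 < c1)
    (h : ∀ e, G.eval e = 0 → c1 ≤ ‖G.derivative.eval e‖) (w : ℂ) :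
    ∃ e, G.eval e = 0 ∧ c1 * ‖w - e‖ ≤ G.natDegree * ‖G.eval w‖ := by
  by_cases h0 : G.eval w = 0
  · exact ⟨w, h0, by simp [h0]⟩
  have G0 : G ≠ 0 := by rintro rfl; simp at hG
  have sm : ∀ e, G.eval e = 0 → G.derivative.eval e ≠ 0 := fun e he =>
    norm_pos_iff.1 (c0.trans_le (h e he))
  have h1 := interp G0 sm (q := 1) (by rw [natDegree_one]; exact hG) h0
  have cd := (card_roots G0 sm).2
  have d0 : (0 : ℝ) < G.natDegree := by exact_mod_cast hG
  by_contra! H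
  have : ‖∑ e ∈ G.roots.toFinset, eval e (1 : ℂ[X]) * (G.eval w / (G.derivative.eval e * (w - e)))‖ <
      ∑ e ∈ G.roots.toFinset, (1 / G.natDegree : ℝ) := by
    refine (norm_sum_le _ _).trans_lt (sum_lt_sum_of_nonempty (card_pos.1 (by omega)) fun e he => ?_)
    rw [Multiset.mem_toFinset, mem_roots G0] at he
    have we : 0 < ‖w - e‖ := norm_pos_iff.2 (sub_ne_zero.2 fun e' => h0 (e' ▸ he))
    have := h e he
    rw [eval_one, one_mul, norm_div, norm_mul, div_lt_div_iff₀ (mul_pos (c0.trans_le this) we) d0]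
    nlinarith [H e he]
  rw [← h1, sum_const, cd, nsmul_eq_mul, mul_one_div_cancel d0.ne'] at this
  simp at this

end Pool.Agent.H.MP_ad3787_an
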