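import Pool.Agent.H.MP_ad3787_an.B

set_option autoImplicit false

namespace Pool.Agent.H.MP_ad3787_an

open Polynomial Finset Metric Filter Topology

variable {F N : ℂ[X]} {R A a c : ℝ} {s : ℕ}

lemma Data.Gder (h : Data F N R A a c) (hs : 1 ≤ s) {w : ℂ} (hw : ‖F.eval w‖ ≤ 1) :
    ‖(F * om F N s).derivative.eval w‖ ≤ 2 * s * A ^ 2 := by
  have s0 : (1 : ℝ) ≤ s := by exact_mod_cast hs
  have A1 := h.A1
  rw [derivative_mul, eval_add, eval_mul, eval_mul, om_der, om_eval]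
  have h1 := (h.hF w (by linarith [h.hR w hw])).1
  obtain ⟨h2, h3, -⟩ := h.hN _ (pow_le1 hw s)
  have h4 := pow_le1 hw (s - 1)
  refine (norm_add_le _ _).trans ?_
  simp only [norm_mul, Complex.norm_natCast]
  have b1 : ‖F.derivative.eval w‖ * ‖N.eval (F.eval w ^ s)‖ ≤ A * A := by gcongr
  have b2 : ‖F.eval w‖ * (s * ‖F.eval w ^ (s - 1)‖ * ‖F.derivative.eval w‖ *
      ‖N.derivative.eval (F.eval w ^ s)‖) ≤ 1 * (s * 1 * A * A) := by gcongr
  nlinarith

lemma Data.avoid (h : Data F N R A a c) (hs : 1 ≤ s) {ρ L : ℝ} {k m : ℕ} (r0 : 0 ≤ ρ) (L0 : 0 ≤ L)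
    (hρ : ρ ≤ 1 / (4 * A))
    (hL : ∀ l : ℂ[X], l.natDegree < (om F N s).natDegree → (∀ e, (om F N s).eval e = 0 → ‖l.eval e‖ ≤ 1) →
      ∀ e w, (F * om F N s).eval e = 0 → ‖w - e‖ ≤ ρ → ‖l.eval w - l.eval e‖ ≤ L)
    (hL2 : 2 * L < 1) (hL3 : (om F N s).natDegree * L ≤ 1)
    (hs2 : 8 * A ^ 2 / (c * a) * (k + F.natDegree + 1) < s)
    (m1 : (om F N s).natDegree ≤ m + 1 + k) (m2 : m < (om F N s).natDegree)
    {ι : Type} [Fintype ι] (hι : Fintype.card ι = m + 1) (x : ι → ℂ) (hx1 : ∀ b, ‖F.eval (x b)‖ ≤ 1)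
    (hx : ∀ b, ∃ e, (F * om F N s).eval e = 0 ∧ ‖x b - e‖ ≤ ρ)
    (hl : ∀ b, ∃ l : ℂ[X], l.natDegree ≤ m ∧ l.eval (x b) = 1 ∧ (∀ b', b' ≠ b → l.eval (x b') = 0) ∧
      ∀ e, (F * om F N s).eval e = 0 → ‖l.eval e‖ ≤ 1) (b : ι) :
    ∃ e, (om F N s).eval e = 0 ∧ ‖x b - e‖ ≤ ρ := by
  classical
  have s0 : (1 : ℝ) ≤ s := by exact_mod_cast hs
  have A1 := h.A1
  have a0 := h.a0
  have c0 := h.c0
  choose e he he' using hx
  choose l l1 l2 l3 l4 using hl
  have l5 : ∀ b b', ‖(l b).eval (x b') - (l b).eval (e b')‖ ≤ L := fun b b' =>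
    hL _ ((l1 b).trans_lt m2) (fun e he => l4 b e (by rw [eval_mul, he, mul_zero])) _ _ (he b') (he' b')
  have inj : Function.Injective e := fun b1 b2 hb => by
    by_contra hne
    have h1 := l5 b1 b1
    have h2 := l5 b1 b2
    rw [l2] at h1
    rw [l3 b1 b2 (Ne.symm hne), ← hb, zero_sub, norm_neg] at h2
    have := norm_le_norm_add_norm_sub' (1 : ℂ) ((l b1).eval (e b1))
    rw [norm_one] at this
    linarith
  by_cases hb : (om F N s).eval (e b) = 0
  · exact ⟨e b, hb, he' b⟩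
  exfalso
  have Fb : F.eval (e b) = 0 := by
    have := he b
    rw [eval_mul, mul_eq_zero] at this
    exact this.resolve_right hb
  have Fx : ‖F.eval (x b)‖ ≤ 1 / 4 := by
    have := (h.hF (x b) (by linarith [h.hR _ (hx1 b)])).2 (e b)
      (by linarith [h.hR (e b) (by simp [Fb])])
    rw [Fb, sub_zero] at this
    refine this.trans ((mul_le_mul_of_nonneg_left ((he' b).trans hρ) (by linarith)).trans (le_of_eq ?_))
    field_simp
  have x0 : (om F N s).eval (x b) ≠ 0 := fun h0 => by linarith [(h.root hs h0).1]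
  have ip := interp (h.om_ne hs) (h.om_simple hs) ((l1 b).trans_lt m2) x0
  obtain ⟨S, hS⟩ : ∃ S, S = (om F N s).roots.toFinset := ⟨_, rfl⟩
  have cS : S.card = (om F N s).natDegree := hS ▸ (card_roots (h.om_ne hs) (h.om_simple hs)).2
  have mS : ∀ y, y ∈ S ↔ (om F N s).eval y = 0 := fun y => by
    rw [hS, Multiset.mem_toFinset, mem_roots (h.om_ne hs)]; rfl
  rw [← hS, l2] at ip
  have c1 : m + 1 ≤ (S ∩ univ.image e).card + F.natDegree := by
    rw [← hι, ← card_univ, ← card_image_of_injective _ inj]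
    refine (card_le_card (t := (S ∩ univ.image e) ∪ F.roots.toFinset) fun y hy => ?_).trans
      ((card_union_le _ _).trans (Nat.add_le_add_left ((Multiset.toFinset_card_le _).trans (card_roots' F)) _))
    obtain ⟨b', -, rfl⟩ := mem_image.1 hy
    have := he b'
    rw [eval_mul, mul_eq_zero] at this
    rcases this with h1 | h1
    · exact mem_union_right _ (by rw [Multiset.mem_toFinset, mem_roots h.F_ne]; exact h1)
    · exact mem_union_left _ (mem_inter.2 ⟨(mS _).2 h1, hy⟩)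
  have c2 : (S \ univ.image e).card ≤ k + F.natDegree := by
    have := card_sdiff_add_card_inter S (univ.image e)
    omega
  have kb : ∀ y ∈ S, ‖(om F N s).eval (x b) / ((om F N s).derivative.eval y * (x b - y))‖ ≤
      8 * A ^ 2 / (c * a) / s := fun y hy => by
    obtain ⟨r1, r2, r3, -⟩ := h.root hs ((mS y).1 hy)
    have q1 : 0 < 1 / (4 * (s : ℝ)) := by positivity
    have b1 : ‖(om F N s).eval (x b)‖ ≤ A := by rw [om_eval]; exact (h.hN _ (pow_le1 (hx1 b) s)).1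
    have b2 : 1 / (4 * A) ≤ ‖x b - y‖ := by
      have := (h.hF y (by linarith [h.hR y (by linarith)])).2 (x b) (by linarith [h.hR _ (hx1 b)])
      have h2 := norm_le_norm_add_norm_sub' (F.eval y) (F.eval (x b))
      rw [norm_sub_rev y] at this
      rw [div_le_iff₀ (by positivity)]
      linarith
    rw [norm_div, norm_mul]
    refine (div_le_div₀ (by positivity) b1 (by positivity)
      (mul_le_mul r3 b2 (by positivity) (norm_nonneg _))).trans (le_of_eq ?_)
    field_simp; ring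
  have K0 : 0 ≤ 8 * A ^ 2 / (c * a) / s := by positivity
  have tot : (1 : ℝ) ≤ 8 * A ^ 2 / (c * a) / s * ((k + F.natDegree) + 1) := by
    have := congrArg norm ip
    rw [norm_one, ← sum_sdiff (inter_subset_left (s₂ := univ.image e)), sdiff_inter_self_left] at this
    refine this.le.trans ((norm_add_le _ _).trans ?_)
    rw [mul_add]
    refine add_le_add ?_ ?_
    · refine (norm_sum_le_of_le _ (n := fun _ => 8 * A ^ 2 / (c * a) / s) fun y hy => ?_).trans ?_
      · rw [norm_mul]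
        have hy' := (mem_sdiff.1 hy).1
        exact (mul_le_of_le_one_left (norm_nonneg _)
          (l4 b y (by rw [eval_mul, (mS y).1 hy', mul_zero]))).trans (kb y hy')
      · rw [sum_const, nsmul_eq_mul, mul_comm]
        exact mul_le_mul_of_nonneg_left (by exact_mod_cast c2) K0
    · refine (norm_sum_le_of_le _ (n := fun _ => L * (8 * A ^ 2 / (c * a) / s)) fun y hy => ?_).trans ?_
      · rw [norm_mul]
        obtain ⟨hy1, hy2⟩ := mem_inter.1 hy
        obtain ⟨b', -, rfl⟩ := mem_image.1 hy2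
        have hne : b' ≠ b := by rintro rfl; exact hb ((mS _).1 hy1)
        have := l5 b b'
        rw [l3 b b' hne, zero_sub, norm_neg] at this
        exact mul_le_mul this (kb _ hy1) (norm_nonneg _) L0
      · rw [sum_const, nsmul_eq_mul, ← mul_assoc, mul_comm]
        refine mul_le_mul_of_nonneg_left (le_trans (mul_le_mul_of_nonneg_right ?_ L0) hL3) K0
        rw [← cS]
        exact_mod_cast card_le_card inter_subset_left
  rw [div_mul_eq_mul_div, le_div_iff₀ (by positivity)] at tot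
  linarith

def Step (F G : ℂ[X]) (k : ℕ) (η : ℝ) : Prop :=
  (∀ e, F.eval e = 0 → G.eval e = 0) ∧
  (∃ r > 0, ∀ w, ‖G.eval w‖ ≤ 1 → ∀ v, ‖v - w‖ ≤ r → ‖F.eval v‖ ≤ 1) ∧
  (∀ (n : ℕ) (q : ℂ[X]) (t : ℝ), q.natDegree ≤ n → 0 < t → (∀ w, ‖G.eval w‖ ≤ 1 → ‖q.eval w‖ ≤ t) →
    ∀ w, ‖F.eval w‖ ≤ 1 → ‖q.eval w‖ ≤ t * Real.exp (η * n)) ∧
  ∃ M : ℕ, ∃ p : ℂ[X], M < G.natDegree ∧ k * p.natDegree ≤ M ∧ (∀ z, F.eval z = 0 → 2 ^ k ≤ ‖p.eval z‖) ∧
    ∀ m, M ≤ m + k → m ≤ M → ∀ (ι : Type) [Fintype ι] (x : ι → ℂ), Fintype.card ι = m + 1 →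
      (∀ b, ‖G.eval (x b)‖ ≤ 1) →
      (∀ b, ∃ l : ℂ[X], l.natDegree ≤ m ∧ l.eval (x b) = 1 ∧ (∀ b', b' ≠ b → l.eval (x b') = 0) ∧
        ∀ e, G.eval e = 0 → ‖l.eval e‖ ≤ 1) → ∀ b, ‖p.eval (x b)‖ ≤ 1

lemma step (hF : Good F) (k : ℕ) {η : ℝ} (η0 : 0 < η) : ∃ G, Good G ∧ Step F G k η := by
  obtain ⟨N, R, A, a, c, dN, h⟩ := data hF (k ^ 2 + 1) (by omega)
  have A1 := h.A1
  have a0 := h.a0
  have c0 := h.c0
  obtain ⟨d, hd⟩ : ∃ d : ℝ, d = F.natDegree := ⟨_, rfl⟩
  have d1 : 1 ≤ d := by rw [hd]; exact_mod_cast h.dF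
  obtain ⟨r, hr⟩ : ∃ r : ℝ, r = N.natDegree := ⟨_, rfl⟩
  have r1 : 1 ≤ r := by rw [hr]; exact_mod_cast h.dN
  obtain ⟨κ, hκ⟩ : ∃ κ, κ = 2 * A ^ 2 / (c * a) := ⟨_, rfl⟩
  have κ0 : 0 < κ := by rw [hκ]; positivity
  obtain ⟨Q, hQ⟩ : ∃ Q, Q = 32 * A * (r * d) * (r * d * κ + 1) + 128 * A ^ 3 / (c * a) := ⟨_, rfl⟩
  have rd : 1 ≤ r * d := by nlinarith
  have Q1 : 32 * A * (r * d) * (r * d * κ + 1) ≤ Q := by rw [hQ]; exact le_add_of_nonneg_right (by positivity)
  have Q2 : 128 * A ^ 3 / (c * a) ≤ Q := by rw [hQ]; exact le_add_of_nonneg_left (by positivity)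
  have Q3 : 32 * A ≤ Q := by
    refine le_trans ?_ Q1
    have : 1 ≤ (r * d) * (r * d * κ + 1) := by nlinarith [mul_pos (show 0 < r * d by linarith) κ0]
    nlinarith
  have Q0 : 0 < Q := by linarith
  obtain ⟨W, hW⟩ : ∃ W, W = 8 * r * d * Q * A / (c * a) + 1 := ⟨_, rfl⟩
  have W1 : 1 ≤ W := by rw [hW]; exact le_add_of_nonneg_left (by positivity)
  obtain ⟨s, hs, hs2, hs3⟩ : ∃ s : ℕ, 1 ≤ s ∧ 8 * A ^ 2 / (c * a) * (k + F.natDegree + 1) < s ∧
      (W * s ^ 4) ^ 2 ≤ Real.exp (η * s) := by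
    have h1 := ((isLittleO_pow_exp_pos_mul_atTop 8 η0).def (c := (W ^ 2)⁻¹) (by positivity))
    obtain ⟨s, ⟨a1, a2⟩, a3⟩ := (((eventually_ge_atTop 1).and (tendsto_natCast_atTop_atTop.eventually_gt_atTop
      (8 * A ^ 2 / (c * a) * (k + F.natDegree + 1)))).and
      (tendsto_natCast_atTop_atTop.eventually h1)).exists
    refine ⟨s, a1, a2, ?_⟩
    rw [Real.norm_of_nonneg (by positivity), Real.norm_of_nonneg (by positivity),
      le_inv_mul_iff₀ (by positivity)] at a3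
    calc _ = W ^ 2 * (s : ℝ) ^ 8 := by ring
      _ ≤ _ := a3
  have s1 : (1 : ℝ) ≤ s := by exact_mod_cast hs
  obtain ⟨ρ, hρ⟩ : ∃ ρ : ℝ, ρ = 1 / (Q * s ^ 3) := ⟨_, rfl⟩
  have ρ0 : 0 < ρ := by rw [hρ]; positivity
  have s3 : (s : ℝ) ≤ s ^ 3 := le_self_pow₀ s1 (by norm_num)
  have ρ1 : ρ ≤ 1 / (8 * s * A) := by
    rw [hρ]; exact one_div_le_one_div_of_le (by positivity) (by nlinarith)
  have ρ2 : 1 / (8 * s * A) + 1 / (8 * s * A) = 1 / (4 * s * A) := by field_simp; ring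
  have ρ3 : 0 < 1 / (8 * (s : ℝ) * A) := by positivity
  have dom : ((om F N s).natDegree : ℝ) = r * (s * d) := by rw [om_deg, hr, hd]; push_cast; ring
  have dG : (F * om F N s).natDegree = F.natDegree + (om F N s).natDegree :=
    natDegree_mul h.F_ne (h.om_ne hs)
  obtain ⟨lam, hlam⟩ : ∃ lam : ℝ, lam = (F * om F N s).natDegree / (c * a / 4 * ρ) := ⟨_, rfl⟩
  have dG0 : (0 : ℝ) < (F * om F N s).natDegree := by rw [dG]; push_cast; rw [← hd, dom]; positivity
  have lam0 : 0 < lam := by rw [hlam]; positivity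
  have lamC : (lam : ℂ) ≠ 0 := by exact_mod_cast lam0.ne'
  have ev : ∀ w, ‖(C (lam : ℂ) * (F * om F N s)).eval w‖ = lam * ‖(F * om F N s).eval w‖ := fun w => by
    rw [eval_mul, eval_C, norm_mul, Complex.norm_real, Real.norm_of_nonneg lam0.le]
  have dH : (C (lam : ℂ) * (F * om F N s)).natDegree = (F * om F N s).natDegree := natDegree_C_mul lamC
  have nr : ∀ w, ‖(C (lam : ℂ) * (F * om F N s)).eval w‖ ≤ 1 →
      ∃ e, (F * om F N s).eval e = 0 ∧ ‖w - e‖ ≤ ρ := fun w hw => by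
    obtain ⟨e, he, he'⟩ := near (G := F * om F N s) (by have := h.dF; omega) (c1 := c * a / 4)
      (by positivity) (fun e he => (h.Groot hs he).2) w
    refine ⟨e, he, le_of_mul_le_mul_left (he'.trans ?_) (show 0 < c * a / 4 by positivity)⟩
    rw [ev, hlam, div_mul_eq_mul_div, div_le_one (by positivity)] at hw
    exact hw
  have inb : ∀ e, (F * om F N s).eval e = 0 → ∀ v ∈ ball e (1 / (4 * s * A)), ‖F.eval v‖ ≤ 1 :=
    fun e he v hv => h.ball_sub hs (h.Groot hs he).1 (by rw [← dist_eq_norm]; exact (mem_ball.1 hv).le)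
  have inb' : ∀ e w : ℂ, ‖w - e‖ ≤ ρ → w ∈ ball e (1 / (4 * s * A)) := fun e w hw => by
    rw [mem_ball, dist_eq_norm]; linarith
  have sub : ∀ w, ‖(C (lam : ℂ) * (F * om F N s)).eval w‖ ≤ 1 → ‖F.eval w‖ ≤ 1 := fun w hw => by
    obtain ⟨e, he, he'⟩ := nr w hw
    exact inb e he w (inb' e w he')
  refine ⟨C (lam : ℂ) * (F * om F N s), ⟨by rw [dH]; have := h.dF; omega, fun w hw => ?_⟩,
    fun e he => by simp [he], ⟨1 / (8 * s * A), ρ3, fun w hw v hv => ?_⟩, fun n q t hq t0 ht w hw => ?_,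
    (om F N s).natDegree - 1, (C 2 * (1 - F ^ s)) ^ k, ?_, ?_, fun z hz => ?_, ?_⟩
  · obtain ⟨e, he, he'⟩ := nr w hw
    rw [derivative_C_mul, eval_mul, eval_C]
    refine mul_ne_zero lamC fun h0 => ?_
    have h1 := schwarz (F * om F N s).derivative (fun v hv => h.Gder hs (inb e he v hv)) (inb' e w he')
    rw [h0, zero_sub, norm_neg] at h1
    have h2 := (h.Groot hs he).2.trans (h1.trans (mul_le_mul_of_nonneg_left he' (by positivity)))
    rw [hρ] at h2
    have : 2 * (2 * s * A ^ 2) / (1 / (4 * s * A)) * (1 / (Q * s ^ 3)) = 16 * A ^ 3 / (Q * s) := by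
      field_simp; ring
    rw [this, le_div_iff₀ (by positivity)] at h2
    rw [div_le_iff₀ (by positivity)] at Q2
    have : 0 < A ^ 3 := by positivity
    nlinarith [mul_pos (mul_pos c0 a0) Q0]
  · obtain ⟨e, he, he'⟩ := nr w hw
    refine h.ball_sub hs (h.Groot hs he).1 ?_
    linarith [norm_sub_le_norm_sub_add_norm_sub v w e]
  · rcases Nat.eq_zero_or_pos n with rfl | n0
    · obtain ⟨z, hz⟩ := Complex.exists_root (natDegree_pos_iff_degree_pos.1 h.dF)
      rw [eq_C_of_natDegree_le_zero hq] at ht ⊢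
      simpa using ht z (by simp [hz.eq_zero])
    have s4 : (1 : ℝ) ≤ s ^ 4 := one_le_pow₀ s1
    have hB : ‖(C (lam : ℂ) * (F * om F N s)).eval w‖ ≤ W * s ^ 4 := by
      rw [ev, eval_mul, norm_mul, om_eval]
      have b1 := mul_le_mul hw (h.hN _ (pow_le1 hw s)).1 (norm_nonneg _) zero_le_one
      have b2 : lam ≤ 8 * r * d * Q / (c * a) * s ^ 4 := by
        rw [hlam, hρ, dG, div_le_iff₀ (by positivity)]
        push_cast
        rw [← hd, dom]
        have : 8 * r * d * Q / (c * a) * s ^ 4 * (c * a / 4 * (1 / (Q * s ^ 3))) = 2 * (r * (s * d)) := by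
          field_simp; ring
        rw [this]
        nlinarith [mul_le_mul r1 s1 zero_le_one (by linarith)]
      refine (mul_le_mul b2 b1 (by positivity) (by positivity)).trans ?_
      rw [hW]
      have : 8 * r * d * Q / (c * a) * s ^ 4 * (1 * A) = 8 * r * d * Q * A / (c * a) * s ^ 4 := by ring
      rw [this]; nlinarith
    have h1 := bw (P := C (lam : ℂ) * (F * om F N s)) (by rw [dH]; have := h.dF; omega) hq t0
      (by nlinarith) ht hB
    have sD : s ≤ (C (lam : ℂ) * (F * om F N s)).natDegree := by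
      rw [dH, dG, om_deg]
      exact le_add_left ((Nat.le_mul_of_pos_right s h.dF).trans (Nat.le_mul_of_pos_left _ h.dN))
    refine le_of_pow_le_pow_left₀ (n := (C (lam : ℂ) * (F * om F N s)).natDegree) (by omega)
      (by positivity) (h1.trans ?_)
    rw [mul_pow t]
    refine mul_le_mul_of_nonneg_left ?_ (pow_pos t0 _).le
    calc (W * s ^ 4) ^ (n + 1) ≤ (W * s ^ 4) ^ (2 * n) := pow_le_pow_right₀ (by nlinarith) (by omega)
      _ ≤ Real.exp (η * s) ^ n := by rw [pow_mul]; exact pow_le_pow_left₀ (by positivity) hs3 n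
      _ = Real.exp (η * n) ^ s := by rw [← Real.exp_nat_mul, ← Real.exp_nat_mul]; ring_nf
      _ ≤ _ := pow_le_pow_right₀ (Real.one_le_exp (mul_nonneg η0.le n.cast_nonneg)) sD
  · rw [dH]; have := h.dF; omega
  · have h1 : (C 2 * (1 - F ^ s) : ℂ[X]).natDegree ≤ s * F.natDegree :=
      (natDegree_C_mul_le _ _).trans ((natDegree_sub_le _ _).trans (by simp [natDegree_pow]))
    have h2 := natDegree_pow_le_of_le k h1
    have h3 : 1 ≤ s * F.natDegree := Nat.mul_pos hs h.dF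
    rw [om_deg, dN]
    refine (Nat.mul_le_mul_left k h2).trans (Nat.le_sub_one_of_lt ?_)
    nlinarith
  · simp [hz, zero_pow (show s ≠ 0 by omega)]
  · intro m m1 m2 ι _ x hι hx hl b
    have op := h.om_pos hs
    obtain ⟨e, he, he'⟩ := h.avoid hs (ρ := ρ) (L := 1 / (4 * (r * (s * d)))) (k := k) (m := m) ρ0.le
      (by positivity) (ρ1.trans (one_div_le_one_div_of_le (by positivity) (by nlinarith)))
      (fun l l1 l2 e w he hw => by
        have h1 := schwarz l (fun v hv => h.sup hs l1 l2 (inb e he v hv)) (inb' e w hw)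
        refine h1.trans ((mul_le_mul_of_nonneg_left hw (by positivity)).trans ?_)
        rw [dom, ← hκ, hρ]
        have : 2 * (r * (s * d) * κ + 1) / (1 / (4 * s * A)) * (1 / (Q * s ^ 3)) =
            8 * A * (r * (s * d) * κ + 1) / (Q * s ^ 2) := by field_simp; ring
        rw [this, div_le_div_iff₀ (by positivity) (by positivity)]
        have e1 : r * (s * d) * κ + 1 ≤ s * (r * d * κ + 1) := by nlinarith
        calc 8 * A * (r * (s * d) * κ + 1) * (4 * (r * (s * d)))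
            ≤ 8 * A * (s * (r * d * κ + 1)) * (4 * (r * (s * d))) := by gcongr
          _ = 32 * A * (r * d) * (r * d * κ + 1) * s ^ 2 := by ring
          _ ≤ 1 * (Q * s ^ 2) := by rw [one_mul]; gcongr)
      (by
        rw [mul_one_div, div_lt_one (by positivity)]
        nlinarith [mul_le_mul rd s1 zero_le_one (by linarith)])
      (by rw [dom, mul_one_div, div_le_one (by positivity)]
          nlinarith [mul_le_mul rd s1 zero_le_one (by linarith)])
      hs2 (by omega) (by omega) hι x (fun b => sub _ (hx b)) (fun b => nr _ (hx b))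
      (fun b => by
        obtain ⟨l, l1, l2, l3, l4⟩ := hl b
        exact ⟨l, l1, l2, l3, fun e he => l4 e (by rw [eval_mul, he, mul_zero])⟩) b
    obtain ⟨-, r2, -, r4⟩ := h.root hs he
    have q1 : 0 < 1 / (4 * (s : ℝ)) := by positivity
    have h1 := h.pow_lip (s := s) (sub _ (hx b)) (show ‖F.eval e‖ ≤ 1 by linarith)
    have h2 : s * A * ‖x b - e‖ ≤ 1 / 8 := by
      refine (mul_le_mul_of_nonneg_left (he'.trans ρ1) (by positivity)).trans (le_of_eq ?_)
      field_simp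
    rw [eval_pow]
    apply pow_le1
    rw [eval_mul, eval_C, eval_sub, eval_one, eval_pow, norm_mul]
    have h3 := norm_sub_le_norm_sub_add_norm_sub 1 (F.eval e ^ s) (F.eval (x b) ^ s)
    rw [norm_sub_rev (F.eval e ^ s)] at h3
    simp only [Complex.norm_ofNat]
    linarith

end Pool.Agent.H.MP_ad3787_an
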