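import Pool.Agent.H.MP_ad3787_an.C
import Pool.Agent.H.MP_a9f24d_an.D

set_option autoImplicit false

namespace Pool.Agent.H.MP_ad3787_an

open Polynomial Finset Metric Filter Topology

lemma seq : ∃ F : ℕ → ℂ[X], ∀ k, Good (F k) ∧ Step (F k) (F (k + 1)) k ((1 / 2) ^ k) := by
  have h : ∀ (k : ℕ) (F : {F // Good F}), ∃ G : {F // Good F}, Step F.1 G.1 k ((1 / 2) ^ k) :=
    fun k F => by
      obtain ⟨G, h1, h2⟩ := step F.2 k (η := (1 / 2) ^ k) (by positivity)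
      exact ⟨⟨G, h1⟩, h2⟩
  choose f hf using h
  let F : ℕ → {F // Good F} := fun k => Nat.rec ⟨X, by simp [Good]⟩ (fun k G => f k G) k
  exact ⟨fun k => (F k).1, fun k => ⟨(F k).2, hf k (F k)⟩⟩

def KK (F : ℕ → ℂ[X]) : Set ℂ := ⋂ k, {w | ‖(F k).eval w‖ ≤ 1}

variable {F : ℕ → ℂ[X]} (hF : ∀ k, Good (F k) ∧ Step (F k) (F (k + 1)) k ((1 / 2) ^ k))
include hF

lemma anti : Antitone fun k => {w | ‖(F k).eval w‖ ≤ 1} := antitone_nat_of_succ_le fun k w hw => by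
  obtain ⟨r, r0, hr⟩ := (hF k).2.2.1
  exact hr w hw w (by simpa using r0.le)

lemma KK_cpt : IsCompact (KK F) :=
  (cpt (hF 0).1.1).of_isClosed_subset (isClosed_iInter fun k => (cpt (hF k).1.1).isClosed)
    (Set.iInter_subset _ 0)

lemma root_mem {k : ℕ} {e : ℂ} (he : (F k).eval e = 0) : e ∈ KK F := by
  have h : ∀ j, (F (k + j)).eval e = 0 := fun j => by
    induction j with
    | zero => exact he
    | succ j ih => exact (hF (k + j)).2.1 e ih
  refine Set.mem_iInter.2 fun j => anti hF (show j ≤ k + j by omega) ?_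
  simp [h j]

lemma chain (k j : ℕ) (n : ℕ) (q : ℂ[X]) (hq : q.natDegree ≤ n) (t : ℝ) (t0 : 0 < t)
    (h : ∀ w, ‖(F (k + j)).eval w‖ ≤ 1 → ‖q.eval w‖ ≤ t) (w : ℂ) (hw : ‖(F k).eval w‖ ≤ 1) :
    ‖q.eval w‖ ≤ t * Real.exp ((2 * (1 / 2) ^ k - 2 * (1 / 2) ^ (k + j)) * n) := by
  induction j generalizing t with
  | zero => simpa using h w hw
  | succ j ih =>
    refine (ih _ (by positivity) ((hF (k + j)).2.2.2.1 n q t hq t0 h)).trans (le_of_eq ?_)
    rw [mul_assoc, ← Real.exp_add, ← add_assoc, pow_succ]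
    congr 2; ring

lemma loc1 {ε : ℝ} (e0 : 0 < ε) : ∃ r > 0, ∀ (n : ℕ) (q : ℂ[X]) (t : ℝ), q.natDegree ≤ n →
    (∀ w ∈ KK F, ‖q.eval w‖ ≤ t) → ∀ w ∈ KK F, ∀ v, ‖v - w‖ ≤ r → ‖q.eval v‖ ≤ t * (1 + ε) ^ n := by
  obtain ⟨k, hk⟩ := exists_pow_lt_of_lt_one (show 0 < Real.log (1 + ε) / 2 from
    half_pos (Real.log_pos (by linarith))) (show (1 / 2 : ℝ) < 1 by norm_num)
  obtain ⟨r, r0, hr⟩ := (hF k).2.2.1
  refine ⟨r, r0, fun n q t hq ht w hw v hv => ?_⟩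
  have t0 : 0 ≤ t := (norm_nonneg _).trans (ht w hw)
  have hv' := hr w (Set.mem_iInter.1 hw (k + 1)) v hv
  refine le_of_forall_pos_le_add fun η η0 => ?_
  obtain ⟨s, hs⟩ : ∃ s, s = t + η / (1 + ε) ^ n := ⟨_, rfl⟩
  have ts : t < s := hs ▸ lt_add_of_pos_right _ (by positivity)
  have e : t * (1 + ε) ^ n + η = s * (1 + ε) ^ n := by rw [hs]; field_simp
  obtain ⟨j, hj⟩ := exists_subset_nhds_of_isCompact (anti hF).directed_ge (fun k => cpt (hF k).1.1)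
    (U := {w | ‖q.eval w‖ < s}) (fun x hx => (isOpen_lt q.continuous.norm continuous_const).mem_nhds
      ((ht x hx).trans_lt ts))
  have := chain hF k j n q hq s (t0.trans_lt ts) (fun w hw => le_of_lt
    (show ‖q.eval w‖ < s from hj (anti hF (show j ≤ k + j by omega) hw))) v hv'
  rw [e]
  refine this.trans (mul_le_mul_of_nonneg_left ?_ (t0.trans ts.le))
  rw [mul_comm, Real.exp_nat_mul]
  refine pow_le_pow_left₀ (Real.exp_pos _).le ?_ n
  rw [← Real.le_log_iff_exp_le (by linarith)]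
  have : (0 : ℝ) < (1 / 2) ^ (k + j) := by positivity
  linarith

omit hF

noncomputable def dn (p : MvPolynomial (Fin 1) ℂ) : ℂ[X] := MvPolynomial.aeval (fun _ => X) p

lemma dn_deg (p : MvPolynomial (Fin 1) ℂ) : (dn p).natDegree ≤ p.totalDegree := by
  simpa [dn] using MvPolynomial.aeval_natDegree_le p le_rfl (fun _ => (X : ℂ[X])) (n := 1) fun _ => by simp

lemma dn_eval (p : MvPolynomial (Fin 1) ℂ) (z : Fin 1 → ℂ) : (dn p).eval (z 0) = MvPolynomial.eval z p := by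
  induction p using MvPolynomial.induction_on with
  | C a => simp [dn]
  | add a b ha hb => simp only [dn, map_add, eval_add] at *; rw [ha, hb]
  | mul_X a i ha =>
    simp only [dn, map_mul, eval_mul, MvPolynomial.aeval_X, eval_X, MvPolynomial.eval_X] at *
    rw [ha, Subsingleton.elim i 0]

noncomputable def up (q : ℂ[X]) : MvPolynomial (Fin 1) ℂ :=
  ∑ j ∈ range (q.natDegree + 1), MvPolynomial.C (q.coeff j) * MvPolynomial.X 0 ^ j

lemma up_deg (q : ℂ[X]) : (up q).totalDegree ≤ q.natDegree :=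
  MvPolynomial.totalDegree_finsetSum_le fun j hj => (MvPolynomial.totalDegree_mul _ _).trans (by
    simpa using Nat.lt_succ_iff.1 (mem_range.1 hj))

lemma up_eval (q : ℂ[X]) (z : Fin 1 → ℂ) : MvPolynomial.eval z (up q) = q.eval (z 0) := by
  simp [up, eval_eq_sum_range]

lemma regular {K : Set ℂ} (hK : IsCompact K) (hne : K.Nonempty)
    (h : ∀ ε > 0, ∃ r > 0, ∀ (n : ℕ) (q : ℂ[X]) (t : ℝ), q.natDegree ≤ n →
      (∀ w ∈ K, ‖q.eval w‖ ≤ t) → ∀ w ∈ K, ∀ v, ‖v - w‖ ≤ r → ‖q.eval v‖ ≤ t * (1 + ε) ^ n) :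
    ∃ Φ : (Fin 1 → ℂ) → ℝ, Continuous Φ ∧ ∀ z : Fin 1 → ℂ,
        IsLUB {t : ℝ | t = 1 ∨ ∃ p : MvPolynomial (Fin 1) ℂ, 1 ≤ p.totalDegree ∧
          (∀ x ∈ {z : Fin 1 → ℂ | z 0 ∈ K}, ‖MvPolynomial.eval x p‖ ≤ 1) ∧
          t = ‖MvPolynomial.eval z p‖ ^ ((1 : ℝ) / (p.totalDegree : ℝ))} (Φ z) := by
  have rp : ∀ (a B : ℝ) (n : ℕ), 1 ≤ n → 0 ≤ a → 0 ≤ B → (a ^ ((1 : ℝ) / n) ≤ B ↔ a ≤ B ^ n) :=
    fun a B n hn a0 B0 => by
      rw [one_div, Real.rpow_inv_le_iff_of_pos a0 B0 (by exact_mod_cast hn), Real.rpow_natCast]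
  have ex : ∀ z : Fin 1 → ℂ, ∃ b, IsLUB {t : ℝ | t = 1 ∨ ∃ p : MvPolynomial (Fin 1) ℂ, 1 ≤ p.totalDegree ∧
          (∀ x ∈ {z : Fin 1 → ℂ | z 0 ∈ K}, ‖MvPolynomial.eval x p‖ ≤ 1) ∧
          t = ‖MvPolynomial.eval z p‖ ^ ((1 : ℝ) / (p.totalDegree : ℝ))} b := fun z => by
    obtain ⟨r, r0, hr⟩ := h 1 one_pos
    obtain ⟨w, hw⟩ := hne
    have d0 : 0 ≤ (dist z (fun _ => w) + 1) / r := by positivity
    refine ⟨_, isLUB_csSup ⟨1, Or.inl rfl⟩ ⟨(1 + (dist z (fun _ => w) + 1) / r) * 2, ?_⟩⟩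
    rintro _ (rfl | ⟨p, p1, p2, rfl⟩)
    · linarith
    · rw [rp _ _ _ p1 (norm_nonneg _) (by positivity)]
      have := MP_a9f24d_an.line 1 p le_rfl (fun _ => w) z r0 (R := dist z (fun _ => w) + 1)
        (M := 1 * (1 + 1) ^ p.totalDegree) (by positivity) (by linarith) fun v hv => by
          rw [one_mul, ← dn_eval]
          refine hr _ _ _ (dn_deg p) (fun u hu => ?_) w hw _ ?_
          · exact (dn_eval p fun _ => u) ▸ p2 (fun _ => u) hu
          · rw [← dist_eq_norm]; exact (dist_le_pi_dist v (fun _ => w) 0).trans hv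
      rw [map_one, norm_one, one_mul, one_mul, one_add_one_eq_two, ← mul_pow] at this
      exact this
  choose Φ hΦ using ex
  have Φ1 : ∀ z, 1 ≤ Φ z := fun z => (hΦ z).1 (Or.inl rfl)
  have bd : ∀ z (n : ℕ) (q : ℂ[X]), q.natDegree ≤ n → (∀ w ∈ K, ‖q.eval w‖ ≤ 1) →
      ‖q.eval (z 0)‖ ≤ Φ z ^ n := fun z n q hq h1 => by
    rcases Nat.eq_zero_or_pos (up q).totalDegree with h0 | h0
    · have h2 := h1 _ hne.some_mem
      rw [← up_eval q fun _ => hne.some] at h2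
      rw [← up_eval, MvPolynomial.totalDegree_eq_zero_iff_eq_C.1 h0] at *
      rw [MvPolynomial.eval_C] at *
      exact h2.trans (one_le_pow₀ (Φ1 z))
    · have := (hΦ z).1 (Or.inr ⟨up q, h0, fun x hx => by rw [up_eval]; exact h1 _ hx, rfl⟩)
      rw [rp _ _ _ h0 (norm_nonneg _) (by linarith [Φ1 z]), up_eval] at this
      exact this.trans (pow_le_pow_right₀ (Φ1 z) ((up_deg q).trans hq))
  have sh : ∀ ε > 0, ∃ r > 0, ∀ z z' : Fin 1 → ℂ, dist z' z ≤ r → Φ z' ≤ (1 + ε) * Φ z := fun ε e0 => by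
    obtain ⟨r, r0, hr⟩ := h ε e0
    refine ⟨r, r0, fun z z' hz => (hΦ z').2 ?_⟩
    have := Φ1 z
    rintro _ (rfl | ⟨p, p1, p2, rfl⟩)
    · nlinarith
    · rw [rp _ _ _ p1 (norm_nonneg _) (by positivity), ← dn_eval]
      have E0 : (0 : ℝ) < (1 + ε) ^ p.totalDegree := by positivity
      have nq : ∀ v, ‖(C ((((1 + ε) ^ p.totalDegree)⁻¹ : ℝ) : ℂ) *
          (dn p).comp (X + C (z' 0 - z 0))).eval v‖ =
          ((1 + ε) ^ p.totalDegree)⁻¹ * ‖(dn p).eval (v + (z' 0 - z 0))‖ := fun v => by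
        rw [eval_mul, eval_C, norm_mul, Complex.norm_real, Real.norm_of_nonneg (by positivity), eval_comp]
        simp
      have := bd z p.totalDegree (C ((((1 + ε) ^ p.totalDegree)⁻¹ : ℝ) : ℂ) *
          (dn p).comp (X + C (z' 0 - z 0))) ((natDegree_C_mul_le _ _).trans (natDegree_comp_le.trans (by
        rw [natDegree_X_add_C, mul_one]; exact dn_deg p))) fun w hw => by
          rw [nq, inv_mul_le_iff₀ E0, mul_comm]
          refine hr _ _ _ (dn_deg p) (fun u hu => ?_) w hw _ ?_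
          · exact (dn_eval p fun _ => u) ▸ p2 (fun _ => u) hu
          · rw [add_sub_cancel_left, ← dist_eq_norm]; exact (dist_le_pi_dist z' z 0).trans hz
      rwa [nq, inv_mul_le_iff₀ E0, add_sub_cancel, ← mul_pow] at this
  refine ⟨Φ, continuous_iff_continuousAt.2 fun z => Metric.continuousAt_iff.2 fun ε e0 => ?_, hΦ⟩
  have := Φ1 z
  obtain ⟨r, r0, hr⟩ := sh (ε / (2 * Φ z)) (by positivity)
  refine ⟨r, r0, fun z' hz => ?_⟩
  have h1 := hr z z' hz.le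
  have h2 := hr z' z (by rw [dist_comm]; exact hz.le)
  have e : ε / (2 * Φ z) * Φ z = ε / 2 := by field_simp
  have := Φ1 z'
  rw [Real.dist_eq, abs_lt]
  constructor
  · by_contra! H
    have : ε / (2 * Φ z) * Φ z' ≤ ε / (2 * Φ z) * Φ z := mul_le_mul_of_nonneg_left (by linarith) (by positivity)
    linarith
  · linarith

end Pool.Agent.H.MP_ad3787_an
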